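import Pool.Agent.Lib.MP_13b08e_lc.Forced
import Pool.Agent.Lib.MP_13b08e_lc.RatX

/-!
The graphs of the file `Doubling` without the edges between labels of levels which differ by more than
one: the entry is still forced.
-/

namespace Pool.Agent.Lib.MP_13b08e_lc.Doubling

open Pool.Agent.Lib.MP_13b08e_lc

variable {k : ℕ}

/-- The level of a label; the labels `e1`, `e2` have no level. -/
def lev : Lab k → Option ℕ
  | .e1 => none
  | .e2 => none
  | .p i => some i.val
  | .n i => some i.val

/-- The levels of the two labels, if they have one, differ by at most one. -/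
def near (l m : Lab k) : Prop := ∀ i j, lev l = some i → lev m = some j → i ≤ j + 1 ∧ j ≤ i + 1

lemma near.symm {l m : Lab k} (h : near l m) : near m l := fun i j h1 h2 =>
  ⟨(h j i h2 h1).2, (h j i h2 h1).1⟩

lemma near_refl (l : Lab k) : near l l := by
  intro i j h1 h2
  rw [h1] at h2
  have := Option.some_injective _ h2
  omega

lemma near_left {l m : Lab k} (h : lev l = none) : near l m := fun i j h1 _ => by
  rw [h] at h1
  exact absurd h1 (by simp)

lemma near_right {l m : Lab k} (h : lev m = none) : near l m := (near_left h).symm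

lemma lev_gb (g : Gad k) : lev (gb g) = none := by
  obtain ⟨i, j⟩ := g
  fin_cases j <;> rfl

lemma lev_ga (g : Gad k) : lev (ga g) = some g.1.val := by
  obtain ⟨i, j⟩ := g
  fin_cases j <;> rfl

lemma lev_gc (g : Gad k) : lev (gc g) = some (g.1.val + 1) := by
  obtain ⟨i, j⟩ := g
  fin_cases j <;> rfl

lemma near_ab (g : Gad k) : near (ga g) (gb g) := near_right (lev_gb g)

lemma near_ac (g : Gad k) : near (ga g) (gc g) := by
  intro i j h1 h2
  rw [lev_ga] at h1
  rw [lev_gc] at h2
  have h3 := Option.some_injective _ h1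
  have h4 := Option.some_injective _ h2
  omega

/-- Pairs of vertices which are kept. -/
def ok : Vert k → Vert k → Prop
  | .U l, .G m => near l m
  | .G l, .U m => near l m
  | .G l, .G m => near l m
  | _, _ => True

variable (k) in
/-- The graph. -/
def T : SimpleGraph (Vert k) where
  Adj u v := (graph k).Adj u v ∧ ok u v ∧ ok v u
  symm := ⟨fun _ _ h => ⟨h.1.symm, h.2.2, h.2.1⟩⟩
  loopless := ⟨fun v h => (graph k).loopless.irrefl v h.1⟩

variable (k) in
/-- The rational point. -/
def xT : (T k).edgeSet → ℚ := fun e => Sym2.lift ⟨fun u v => dat u v, dat_symm⟩ e.1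

lemma xT_apply (u v : Vert k) (h : (T k).Adj u v) : xT k ⟨s(u, v), h⟩ = dat u v := rfl

/-- Completions for the larger graph. -/
lemma isCompletion_T {X : Matrix (Vert k) (Vert k) ℝ} (hX : IsCompletion (graph k) (x k) X) :
    IsCompletion (T k) (xT k) X where
  psd := hX.psd
  diag := hX.diag
  edge u v h := by rw [hX.edge u v h.1, x_apply, xT_apply]

lemma entryT {Y : Matrix (Vert k) (Vert k) ℝ} (hY : IsCompletion (T k) (xT k) Y)
    (u v : Vert k) (a : ℚ) (h : dir u v = some a) (huv : u ≠ v) (h1 : ok u v) (h2 : ok v u) :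
    Y u v = a := by
  have hadj : (T k).Adj u v := by
    refine ⟨?_, h1, h2⟩
    unfold graph
    rw [SimpleGraph.fromRel_adj]
    exact ⟨huv, Or.inl (by rw [h]; rfl)⟩
  rw [hY.edge u v hadj, xT_apply, dat, h, dir_other u v a h]
  simp

/-- The forced value of the entry at `U (p k)`, `U e1`. -/
theorem forcedT {Y : Matrix (Vert k) (Vert k) ℝ} (hY : IsCompletion (T k) (xT k) Y) :
    Y (.U (.p (Fin.last k))) (.U .e1) = q k := by
  obtain ⟨w, hw⟩ := exists_gram hY.psd
  have hunit : ∀ v, inner ℝ (w v) (w v) = (1 : ℝ) := fun v => by rw [hw, hY.diag]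
  have hent : ∀ u v a, dir u v = some a → u ≠ v → ok u v → ok v u →
      inner ℝ (w u) (w v) = (a : ℝ) :=
    fun u v a h huv h1 h2 => by rw [hw]; exact entryT hY u v a h huv h1 h2
  -- the gadgets
  have hgad : ∀ g : Gad k, inner ℝ (w (.U (gc g))) (w (.U (ga g))) =
      (gs g : ℝ) * inner ℝ (w (.U (gb g))) (w (.U (ga g))) := by
    intro g
    have hb : inner ℝ (w (.U (gb g))) (w (.S g)) = (0 : ℝ) := by
      rw [real_inner_comm, hent (.S g) (.U (gb g)) 0 (by simp [dir]) (by simp) trivial trivial]; simp
    have hc : inner ℝ (w (.U (gc g))) (w (.S g)) = (0 : ℝ) := by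
      rw [real_inner_comm, hent (.S g) (.U (gc g)) 0 (by simp [dir]) (by simp) trivial trivial]; simp
    have hK : w (.K g) = (3 / 5 : ℝ) • w (.U (gb g)) + (4 / 5 : ℝ) • w (.S g) := by
      refine eq_combination (r := 1) (hunit _) (hunit _) hb (hunit _) ?_ ?_ (by norm_num)
      · rw [hent (.K g) (.U (gb g)) (3 / 5) (by simp [dir]) (by simp) trivial trivial]; norm_num
      · rw [hent (.K g) (.S g) (4 / 5) (by simp [dir]) (by simp) trivial trivial]; norm_num
    have hs : (gs g : ℝ) * gs g = 1 := by exact_mod_cast gs_sq g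
    have hK' : w (.K' g) = (3 / 5 : ℝ) • w (.U (gc g)) + ((gs g : ℝ) * (4 / 5)) • w (.S g) := by
      refine eq_combination (r := 1) (hunit _) (hunit _) hc (hunit _) ?_ ?_ (by
        linear_combination (16 / 25) * hs)
      · rw [hent (.K' g) (.U (gc g)) (3 / 5) (by simp [dir]) (by simp) trivial trivial]; norm_num
      · rw [hent (.K' g) (.S g) (gs g * (4 / 5)) (by simp [dir]) (by simp) trivial trivial]; push_cast; ring
    have h1 : inner ℝ (w (.K g)) (w (.U (ga g))) = (0 : ℝ) := by
      rw [hent (.K g) (.U (ga g)) 0 (by simp [dir, ga_ne_gb g]) (by simp) trivial trivial]; simp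
    have h2 : inner ℝ (w (.K' g)) (w (.U (ga g))) = (0 : ℝ) := by
      rw [hent (.K' g) (.U (ga g)) 0 (by simp [dir, ga_ne_gc g]) (by simp) trivial trivial]; simp
    rw [hK, inner_add_left, real_inner_smul_left, real_inner_smul_left] at h1
    rw [hK', inner_add_left, real_inner_smul_left, real_inner_smul_left] at h2
    linear_combination (5 / 3) * h2 - (5 / 3) * (gs g : ℝ) * h1
  -- the residual vectors
  set r : Lab k → EuclideanSpace ℝ (Vert k) := fun l => w (.U l) - (4 / 5 : ℝ) • w (.G l) with hr
  have hUG : ∀ l m : Lab k, near l m →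
      inner ℝ (w (.U l)) (w (.G m)) = if l = m then (4 / 5 : ℝ) else 0 := by
    intro l m hlm
    rw [hent (.U l) (.G m) (if l = m then 4 / 5 else 0) (by simp [dir]) (by simp) hlm hlm.symm]
    by_cases h : l = m <;> simp [h]
  have hGG : ∀ l m : Lab k, near l m → l ≠ m → inner ℝ (w (.G l)) (w (.G m)) = (0 : ℝ) := by
    intro l m hnr hlm
    rw [hent (.G l) (.G m) 0 (by simp [dir]) (by simpa using hlm) hnr hnr.symm]; simp
  have hr_self : ∀ l, inner ℝ (r l) (r l) = (9 / 25 : ℝ) := by
    intro l
    simp only [hr, inner_sub_left, inner_sub_right, real_inner_smul_left, real_inner_smul_right,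
      hunit, hUG l l (near_refl l), real_inner_comm (w (.U l)) (w (.G l)), if_true]
    norm_num
  have hr_ne : ∀ l m, near l m → l ≠ m →
      inner ℝ (r l) (r m) = (inner ℝ (w (.U l)) (w (.U m)) : ℝ) := by
    intro l m hnr hlm
    have h1 : inner ℝ (w (.G l)) (w (.U m)) = (0 : ℝ) := by
      rw [real_inner_comm, hUG m l hnr.symm, if_neg hlm.symm]
    simp only [hr, inner_sub_left, inner_sub_right, real_inner_smul_left, real_inner_smul_right,
      hUG l m hnr, hGG l m hnr hlm, h1, if_neg hlm]
    ring
  have hr_gad : ∀ g : Gad k, inner ℝ (r (gc g)) (r (ga g)) =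
      (gs g : ℝ) * inner ℝ (r (gb g)) (r (ga g)) := by
    intro g
    rw [hr_ne _ _ (near_ac g).symm (ga_ne_gc g).symm,
      hr_ne _ _ (near_ab g).symm (ga_ne_gb g).symm, hgad]
  have h12 : inner ℝ (r .e1) (r .e2) = (0 : ℝ) := by
    rw [hr_ne _ _ (near_left rfl) (by simp), hent (.U .e1) (.U .e2) 0 (by simp [dir]) (by simp)
      trivial trivial]; simp
  have h21 : inner ℝ (r .e2) (r .e1) = (0 : ℝ) := by rw [real_inner_comm]; exact h12
  -- induction
  have key : ∀ (i : ℕ) (hi : i < k + 1), r (.p ⟨i, hi⟩) = c i • r .e1 + s i • r .e2 ∧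
      r (.n ⟨i, hi⟩) = (-s i) • r .e1 + c i • r .e2 := by
    intro i
    induction i with
    | zero =>
        intro hi
        have c0 : c 0 = 3 / 5 := by simp [c, cs]
        have s0 : s 0 = 4 / 5 := by simp [s, cs]
        have hz : (⟨0, hi⟩ : Fin (k + 1)) = 0 := rfl
        rw [hz]
        constructor
        · refine eq_combination (hr_self _) (hr_self _) h12 (hr_self _) ?_ ?_ (cs_sq 0)
          · rw [hr_ne _ _ (near_right rfl) (by simp), hent (.U (.p 0)) (.U .e1) (27 / 125)
              (by simp [dir]) (by simp) trivial trivial, c0]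
            norm_num
          · rw [hr_ne _ _ (near_right rfl) (by simp), hent (.U (.p 0)) (.U .e2) (36 / 125)
              (by simp [dir]) (by simp) trivial trivial, s0]
            norm_num
        · refine eq_combination (hr_self _) (hr_self _) h12 (hr_self _) ?_ ?_ (by
            have := cs_sq 0
            linarith)
          · rw [hr_ne _ _ (near_right rfl) (by simp), hent (.U (.n 0)) (.U .e1) (-36 / 125)
              (by simp [dir]) (by simp) trivial trivial, s0]
            norm_num
          · rw [hr_ne _ _ (near_right rfl) (by simp), hent (.U (.n 0)) (.U .e2) (27 / 125)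
              (by simp [dir]) (by simp) trivial trivial, c0]
            norm_num
    | succ i ih =>
        intro hi
        have hik : i < k := by omega
        obtain ⟨hp, hn⟩ := ih (by omega)
        set P := r (.p ⟨i, by omega⟩) with hP
        set N := r (.n ⟨i, by omega⟩) with hN
        have hPN : inner ℝ P N = (0 : ℝ) := by
          rw [hp, hn]
          simp only [inner_add_left, inner_add_right, real_inner_smul_left, real_inner_smul_right,
            hr_self, h12, h21]
          ring
        have e1P : inner ℝ (r .e1) P = 9 / 25 * c i := by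
          rw [hp, inner_add_right, real_inner_smul_right, real_inner_smul_right, hr_self, h12]
          ring
        have e2P : inner ℝ (r .e2) P = 9 / 25 * s i := by
          rw [hp, inner_add_right, real_inner_smul_right, real_inner_smul_right, hr_self, h21]
          ring
        have e1N : inner ℝ (r .e1) N = 9 / 25 * (-s i) := by
          rw [hn, inner_add_right, real_inner_smul_right, real_inner_smul_right, hr_self, h12]
          ring
        have e2N : inner ℝ (r .e2) N = 9 / 25 * c i := by
          rw [hn, inner_add_right, real_inner_smul_right, real_inner_smul_right, hr_self, h21]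
          ring
        have g0 := hr_gad (⟨i, hik⟩, 0)
        have g1 := hr_gad (⟨i, hik⟩, 1)
        have g2 := hr_gad (⟨i, hik⟩, 2)
        have g3 := hr_gad (⟨i, hik⟩, 3)
        simp only [ga, gb, gc, gs] at g0 g1 g2 g3
        have hcast : (Fin.castSucc ⟨i, hik⟩ : Fin (k + 1)) = ⟨i, by omega⟩ := rfl
        have hsucc : (Fin.succ ⟨i, hik⟩ : Fin (k + 1)) = ⟨i + 1, hi⟩ := rfl
        rw [hcast, hsucc] at g0 g1 g2 g3
        rw [← hP, e1P] at g0
        rw [← hN, e1N] at g1
        rw [← hP, e2P] at g2
        rw [← hN, e2N] at g3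
        have hp' : r (.p ⟨i + 1, hi⟩) = c i • P + s i • N := by
          refine eq_combination (hr_self _) (hr_self _) hPN (hr_self _) ?_ ?_ (cs_sq i)
          · rw [g0]; push_cast; ring
          · rw [g1]; push_cast; ring
        have hn' : r (.n ⟨i + 1, hi⟩) = (-s i) • P + c i • N := by
          refine eq_combination (hr_self _) (hr_self _) hPN (hr_self _) ?_ ?_ (by
            have := cs_sq i
            linarith)
          · rw [g2]; push_cast; ring
          · rw [g3]; push_cast; ring
        constructor
        · rw [hp', hp, hn, c_succ, s_succ]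
          module
        · rw [hn', hp, hn, c_succ, s_succ]
          module
  have hlast := (key k (by omega)).1
  have hfin : inner ℝ (r (.p (Fin.last k))) (r .e1) = 9 / 25 * c k := by
    have hl : (Fin.last k) = ⟨k, by omega⟩ := rfl
    rw [hl, hlast, inner_add_left, real_inner_smul_left, real_inner_smul_left, hr_self, h21]
    ring
  rw [hr_ne _ _ (near_right rfl) (by simp), hw] at hfin
  rw [hfin, q]
  push_cast
  rfl

end Pool.Agent.Lib.MP_13b08e_lc.Doubling
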