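import Pool.Agent.Lib.MP_13b08e_lc.TW.Width

/-!
The graphs of the file `Local` have pathwidth at most eleven.
-/

namespace Pool.Agent.Lib.MP_13b08e_lc

/-- `G` has pathwidth at most `w`: the vertices have intervals `[lo v, hi v]` of natural numbers such
that the intervals of adjacent vertices meet and every number is in at most `w + 1` intervals. -/
def PathwidthLE {V : Type} (G : SimpleGraph V) (w : ℕ) : Prop :=
  ∃ lo hi : V → ℕ, (∀ v, lo v ≤ hi v) ∧ (∀ u v, G.Adj u v → lo u ≤ hi v ∧ lo v ≤ hi u) ∧
    ∀ t : ℕ, {v | lo v ≤ t ∧ t ≤ hi v}.encard ≤ w + 1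

namespace Doubling

variable {k : ℕ}

/-- Left ends of the intervals. -/
def lo : Vert k → ℕ
  | .U l => (match lev l with | some i => 9 * i - 9 | none => 0)
  | .G l => (match lev l with | some i => 9 * i - 9 | none => 0)
  | .S g => 9 * g.1.val + 2 * g.2.val + 1
  | .K g => 9 * g.1.val + 2 * g.2.val + 1
  | .K' g => 9 * g.1.val + 2 * g.2.val + 2

/-- Right ends of the intervals. -/
def hi : Vert k → ℕ
  | .U l => (match lev l with | some i => 9 * i + 8 | none => 9 * k + 8)
  | .G l => (match lev l with | some i => 9 * i | none => 9 * k + 8)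
  | .S g => 9 * g.1.val + 2 * g.2.val + 2
  | .K g => 9 * g.1.val + 2 * g.2.val + 1
  | .K' g => 9 * g.1.val + 2 * g.2.val + 2

lemma lo_le_hi (v : Vert k) : lo v ≤ hi v := by
  cases v with
  | U l => rcases h : lev l with _ | i <;> simp only [lo, hi, h] <;> omega
  | G l => rcases h : lev l with _ | i <;> simp only [lo, hi, h] <;> omega
  | S g => simp only [lo, hi]; omega
  | K g => simp only [lo, hi]; omega
  | K' g => simp only [lo, hi]; omega

lemma meet_lab {u v : Vert k} {l m : Lab k} (hu : lab u = some l) (hv : lab v = some m)
    (h : near l m) : lo u ≤ hi v := by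
  cases u <;> simp only [lab, Option.some.injEq, reduceCtorEq] at hu <;> subst hu <;>
    cases v <;> simp only [lab, Option.some.injEq, reduceCtorEq] at hv <;> subst hv <;>
    rename_i l m <;> rcases hl : lev l with _ | i <;> rcases hm : lev m with _ | j <;>
    simp only [lo, hi, hl, hm] <;>
    first
      | omega
      | (have h1 := lev_le hl
         omega)
      | (have h1 := h i j hl hm
         omega)

lemma meet_of_R {u v : Vert k} (h : R u v) : lo u ≤ hi v ∧ lo v ≤ hi u := by
  cases u with
  | U l =>
    cases v with
    | U m => exact ⟨meet_lab rfl rfl h, meet_lab rfl rfl (near.symm h)⟩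
    | G m => exact ⟨meet_lab rfl rfl h, meet_lab rfl rfl (near.symm h)⟩
    | S g => exact h.elim
    | K g => exact h.elim
    | K' g => exact h.elim
  | G l =>
    cases v with
    | G m => exact ⟨meet_lab rfl rfl h, meet_lab rfl rfl (near.symm h)⟩
    | U m => exact h.elim
    | S g => exact h.elim
    | K g => exact h.elim
    | K' g => exact h.elim
  | S g =>
    have h1 := g.1.isLt
    have h2 := g.2.isLt
    cases v with
    | U m =>
      rcases h with rfl | rfl | rfl
      · simp only [lo, hi, lev_ga]; omega
      · simp only [lo, hi, lev_gb]; omega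
      · simp only [lo, hi, lev_gc]; omega
    | G m => exact h.elim
    | S g => exact h.elim
    | K g => exact h.elim
    | K' g => exact h.elim
  | K g =>
    have h1 := g.1.isLt
    have h2 := g.2.isLt
    cases v with
    | U m =>
      rcases h with rfl | rfl
      · simp only [lo, hi, lev_ga]; omega
      · simp only [lo, hi, lev_gb]; omega
    | S g' =>
      obtain rfl : g = g' := h
      simp only [lo, hi]; omega
    | G m => exact h.elim
    | K g => exact h.elim
    | K' g => exact h.elim
  | K' g =>
    have h1 := g.1.isLt
    have h2 := g.2.isLt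
    cases v with
    | U m =>
      rcases h with rfl | rfl
      · simp only [lo, hi, lev_ga]; omega
      · simp only [lo, hi, lev_gc]; omega
    | S g' =>
      obtain rfl : g = g' := h
      simp only [lo, hi]; omega
    | G m => exact h.elim
    | K g => exact h.elim
    | K' g => exact h.elim

/-- Numbers for the vertices whose interval contains a number `t` with `t / 9 = i`. -/
def num' (i : ℕ) : Vert k → ℕ
  | .U .e1 => 0
  | .U .e2 => 1
  | .G .e1 => 2
  | .G .e2 => 3
  | .U (.p j) => 4 + (j.val - i)
  | .U (.n j) => 6 + (j.val - i)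
  | .G (.p j) => 8 + (j.val - i)
  | .G (.n j) => 10 + (j.val - i)
  | .S _ => 8
  | .K _ => 10
  | .K' _ => 10

/-- The interval of `v` contains `t`. -/
def at' (t : ℕ) (v : Vert k) : Prop := lo v ≤ t ∧ t ≤ hi v

lemma num_lt {t : ℕ} {v : Vert k} (h : at' t v) : num' (t / 9) v < 12 := by
  obtain ⟨h1, h2⟩ := h
  cases v with
  | U l => cases l <;> simp only [num', lo, hi, lev] at * <;> omega
  | G l => cases l <;> simp only [num', lo, hi, lev] at * <;> omega
  | S g => simp only [num']; omega
  | K g => simp only [num']; omega
  | K' g => simp only [num']; omega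

private lemma arith {a b a' b' t : ℕ} (hb : b < 4) (hb' : b' < 4) (h1 : 9 * a + 2 * b + 1 ≤ t)
    (h2 : t ≤ 9 * a + 2 * b + 2) (h3 : 9 * a' + 2 * b' + 1 ≤ t) (h4 : t ≤ 9 * a' + 2 * b' + 2) :
    a = a' ∧ b = b' := by
  interval_cases b <;> interval_cases b' <;> omega

private lemma arith' {a b t : ℕ} (hb : b < 4) (h1 : 9 * a + 2 * b + 1 ≤ t)
    (h2 : t ≤ 9 * a + 2 * b + 2) : t % 9 ≠ 0 := by
  interval_cases b <;> omega

lemma num_inj {t : ℕ} {u v : Vert k} (hu : at' t u) (hv : at' t v)
    (h : num' (t / 9) u = num' (t / 9) v) : u = v := by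
  obtain ⟨u1, u2⟩ := hu
  obtain ⟨v1, v2⟩ := hv
  have e : ∀ a b : Fin (k + 1), a.val = b.val → a = b := fun a b => Fin.ext
  have e2 : ∀ a b : Gad k, a.1.val = b.1.val → a.2.val = b.2.val → a = b := fun a b h1 h2 =>
    Prod.ext (Fin.ext h1) (Fin.ext h2)
  cases u with
  | U l =>
    cases v with
    | U m =>
      cases l <;> cases m <;> simp only [num', lo, hi, lev] at * <;>
        first
          | rfl
          | (exfalso; omega)
          | (rename_i a b; rw [e a b (by omega)])
    | G m => cases l <;> cases m <;> simp only [num', lo, hi, lev] at * <;> omega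
    | S g => cases l <;> simp only [num', lo, hi, lev] at * <;> omega
    | K g => cases l <;> simp only [num', lo, hi, lev] at * <;> omega
    | K' g => cases l <;> simp only [num', lo, hi, lev] at * <;> omega
  | G l =>
    cases v with
    | U m => cases l <;> cases m <;> simp only [num', lo, hi, lev] at * <;> omega
    | G m =>
      cases l <;> cases m <;> simp only [num', lo, hi, lev] at * <;>
        first
          | rfl
          | (exfalso; omega)
          | (rename_i a b; rw [e a b (by omega)])
    | S g =>
      have h3 : t % 9 ≠ 0 := by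
        simp only [lo, hi] at v1 v2
        exact arith' g.2.isLt (a := g.1.val) (by omega) (by omega)
      cases l <;> simp only [num', lo, hi, lev] at * <;> omega
    | K g =>
      have h3 : t % 9 ≠ 0 := by
        simp only [lo, hi] at v1 v2
        exact arith' g.2.isLt (a := g.1.val) (by omega) (by omega)
      cases l <;> simp only [num', lo, hi, lev] at * <;> omega
    | K' g =>
      have h3 : t % 9 ≠ 0 := by
        simp only [lo, hi] at v1 v2
        exact arith' g.2.isLt (a := g.1.val) (by omega) (by omega)
      cases l <;> simp only [num', lo, hi, lev] at * <;> omega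
  | S g =>
    have h2 := g.2.isLt
    cases v with
    | U m => cases m <;> simp only [num', lo, hi, lev] at * <;> omega
    | G m =>
      have h3 : t % 9 ≠ 0 := by
        simp only [lo, hi] at u1 u2
        exact arith' g.2.isLt (a := g.1.val) (by omega) (by omega)
      cases m <;> simp only [num', lo, hi, lev] at * <;> omega
    | S g' =>
      have h3 := g'.2.isLt
      simp only [lo, hi] at *
      have h4 := arith (a := g.1.val) (a' := g'.1.val) h2 h3 (t := t) (by omega) (by omega)
        (by omega) (by omega)
      rw [e2 g g' h4.1 h4.2]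
    | K g' => simp only [num'] at h; omega
    | K' g' => simp only [num'] at h; omega
  | K g =>
    have h2 := g.2.isLt
    cases v with
    | U m => cases m <;> simp only [num', lo, hi, lev] at * <;> omega
    | G m =>
      have h3 : t % 9 ≠ 0 := by
        simp only [lo, hi] at u1 u2
        exact arith' g.2.isLt (a := g.1.val) (by omega) (by omega)
      cases m <;> simp only [num', lo, hi, lev] at * <;> omega
    | S g' => simp only [num'] at h; omega
    | K g' =>
      have h3 := g'.2.isLt
      simp only [lo, hi] at *
      have h4 := arith (a := g.1.val) (a' := g'.1.val) h2 h3 (t := t) (by omega) (by omega)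
        (by omega) (by omega)
      rw [e2 g g' h4.1 h4.2]
    | K' g' =>
      have h3 := g'.2.isLt
      simp only [lo, hi] at *
      have h4 := arith (a := g.1.val) (a' := g'.1.val) h2 h3 (t := t) (by omega) (by omega)
        (by omega) (by omega)
      omega
  | K' g =>
    have h2 := g.2.isLt
    cases v with
    | U m => cases m <;> simp only [num', lo, hi, lev] at * <;> omega
    | G m =>
      have h3 : t % 9 ≠ 0 := by
        simp only [lo, hi] at u1 u2
        exact arith' g.2.isLt (a := g.1.val) (by omega) (by omega)
      cases m <;> simp only [num', lo, hi, lev] at * <;> omega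
    | S g' => simp only [num'] at h; omega
    | K g' =>
      have h3 := g'.2.isLt
      simp only [lo, hi] at *
      have h4 := arith (a := g.1.val) (a' := g'.1.val) h2 h3 (t := t) (by omega) (by omega)
        (by omega) (by omega)
      omega
    | K' g' =>
      have h3 := g'.2.isLt
      simp only [lo, hi] at *
      have h4 := arith (a := g.1.val) (a' := g'.1.val) h2 h3 (t := t) (by omega) (by omega)
        (by omega) (by omega)
      rw [e2 g g' h4.1 h4.2]

/-- The pathwidth is at most eleven. -/
theorem pathwidth_T : PathwidthLE (T k) 11 := by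
  refine ⟨lo, hi, lo_le_hi, fun u v h => ?_, fun t => ?_⟩
  · rcases (T_le h).2 with h | h
    · exact meet_of_R h
    · exact (meet_of_R h).symm
  · have h1 : Set.encard ((num' (t / 9)) '' {v : Vert k | lo v ≤ t ∧ t ≤ hi v}) ≤ 12 := by
      have h2 : (num' (t / 9)) '' {v : Vert k | lo v ≤ t ∧ t ≤ hi v} ⊆
          ((Finset.range 12 : Finset ℕ) : Set ℕ) := by
        rintro _ ⟨v, hv, rfl⟩
        exact Finset.mem_coe.2 (Finset.mem_range.2 (num_lt hv))
      refine (Set.encard_le_encard h2).trans ?_
      rw [Set.encard_coe_eq_coe_finsetCard, Finset.card_range]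
      norm_num
    have h3 : Set.InjOn (num' (t / 9)) {v : Vert k | lo v ≤ t ∧ t ≤ hi v} :=
      fun u hu v hv h => num_inj hu hv h
    rw [h3.encard_image] at h1
    refine h1.trans ?_
    norm_num

end Doubling

end Pool.Agent.Lib.MP_13b08e_lc
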