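import Pool.Agent.Lib.MP_13b08e_lc.TW.Local
import Pool.Agent.Lib.MP_13b08e_lc.RC.Props

/-!
The graphs of the file `Local` have treewidth at most eleven.
-/

namespace Pool.Agent.Lib.MP_13b08e_lc.Doubling

open Pool.Agent.Lib.MP_13b08e_lc

variable {k : ℕ}

/-- The edges of the chordal supergraph, for directed pairs of vertices. -/
def R : Vert k → Vert k → Prop
  | .K g, .S g' => g = g'
  | .K g, .U l => l = ga g ∨ l = gb g
  | .K' g, .S g' => g = g'
  | .K' g, .U l => l = ga g ∨ l = gc g
  | .S g, .U l => l = ga g ∨ l = gb g ∨ l = gc g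
  | .U l, .U m => near l m
  | .U l, .G m => near l m
  | .G l, .G m => near l m
  | _, _ => False

variable (k) in
/-- The chordal supergraph. -/
def HT : SimpleGraph (Vert k) where
  Adj u v := u ≠ v ∧ (R u v ∨ R v u)
  symm := ⟨fun _ _ h => ⟨h.1.symm, h.2.symm⟩⟩
  loopless := ⟨fun _ h => h.1 rfl⟩

lemma R_of_dir (u v : Vert k) (h : (dir u v).isSome) (hok : ok u v) : R u v := by
  cases u with
  | U l =>
    cases v with
    | U m =>
      cases m with
      | e1 => exact near_right rfl
      | e2 => exact near_right rfl
      | p i => cases l <;> simp [dir] at h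
      | n i => cases l <;> simp [dir] at h
    | G m => exact hok
    | S g => simp [dir] at h
    | K g => simp [dir] at h
    | K' g => simp [dir] at h
  | G l =>
    cases v with
    | G m => exact hok
    | U m => simp [dir] at h
    | S g => simp [dir] at h
    | K g => simp [dir] at h
    | K' g => simp [dir] at h
  | S g =>
    cases v with
    | U m =>
      by_cases h1 : m = gb g ∨ m = gc g
      · exact Or.inr h1
      · simp [dir, h1] at h
    | G m => simp [dir] at h
    | S g => simp [dir] at h
    | K g => simp [dir] at h
    | K' g => simp [dir] at h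
  | K g =>
    cases v with
    | U m =>
      by_cases h1 : m = gb g
      · exact Or.inr h1
      · by_cases h2 : m = ga g
        · exact Or.inl h2
        · simp [dir, h1, h2] at h
    | S g' =>
      by_cases h1 : g = g'
      · exact h1
      · simp [dir, h1] at h
    | G m => simp [dir] at h
    | K g => simp [dir] at h
    | K' g => simp [dir] at h
  | K' g =>
    cases v with
    | U m =>
      by_cases h1 : m = gc g
      · exact Or.inr h1
      · by_cases h2 : m = ga g
        · exact Or.inl h2
        · simp [dir, h1, h2] at h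
    | S g' =>
      by_cases h1 : g = g'
      · exact h1
      · simp [dir, h1] at h
    | G m => simp [dir] at h
    | K g => simp [dir] at h
    | K' g => simp [dir] at h

lemma T_le : T k ≤ HT k := by
  intro u v h
  obtain ⟨h1, h2, h3⟩ := h
  unfold graph at h1
  rw [SimpleGraph.fromRel_adj] at h1
  exact ⟨h1.1, h1.2.imp (fun h => R_of_dir u v h h2) (fun h => R_of_dir v u h h3)⟩

/-- The label of a vertex. -/
def lab : Vert k → Option (Lab k)
  | .U l => some l
  | .G l => some l
  | _ => none

lemma adj_lab {u v : Vert k} {l m : Lab k} (hu : lab u = some l) (hv : lab v = some m) :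
    (HT k).Adj u v ↔ u ≠ v ∧ near l m := by
  have key : R u v ∨ R v u ↔ near l m := by
    cases u <;> cases v <;> simp only [lab, Option.some.injEq, reduceCtorEq] at hu hv <;>
      subst hu <;> subst hv <;> simp only [R, or_false, false_or]
    · exact ⟨fun h => h.elim id fun h => h.symm, Or.inl⟩
    · exact ⟨fun h => h.symm, fun h => h.symm⟩
    · exact ⟨fun h => h.elim id fun h => h.symm, Or.inl⟩
  exact and_congr_right fun _ => key

/-- The neighbours of a gadget. -/
def C (g : Gad k) : Finset (Vert k) := {.S g, .U (ga g), .U (gb g), .U (gc g)}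

lemma near_bc (g : Gad k) : near (gb g) (gc g) := near_left (lev_gb g)

lemma C_clique (g : Gad k) (a b : Vert k) (ha : a ∈ C g) (hb : b ∈ C g) (hab : a ≠ b) :
    (HT k).Adj a b := by
  refine ⟨hab, ?_⟩
  simp only [C, Finset.mem_insert, Finset.mem_singleton] at ha hb
  have h1 := near_ab g
  have h2 := near_ac g
  have h3 := near_bc g
  rcases ha with rfl | rfl | rfl | rfl <;> rcases hb with rfl | rfl | rfl | rfl <;>
    first
      | exact absurd rfl hab
      | exact Or.inl (Or.inl rfl)
      | exact Or.inl (Or.inr (Or.inl rfl))
      | exact Or.inl (Or.inr (Or.inr rfl))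
      | exact Or.inr (Or.inl rfl)
      | exact Or.inr (Or.inr (Or.inl rfl))
      | exact Or.inr (Or.inr (Or.inr rfl))
      | exact Or.inl h1
      | exact Or.inl h2
      | exact Or.inl h3
      | exact Or.inr h1
      | exact Or.inr h2
      | exact Or.inr h3

/-- The rank of a vertex in the elimination ordering. -/
def rank : Vert k → ℕ
  | .K _ => 0
  | .K' _ => 0
  | .S _ => 1
  | .U l => (match lev l with | some i => i + 2 | none => k + 3)
  | .G l => (match lev l with | some i => i + 2 | none => k + 3)

lemma rank_some {v : Vert k} {l : Lab k} {i : ℕ} (hv : lab v = some l) (hl : lev l = some i) :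
    rank v = i + 2 := by
  cases v <;> simp only [lab, Option.some.injEq, reduceCtorEq] at hv <;> subst hv <;>
    simp only [rank, hl]

lemma rank_none {v : Vert k} {l : Lab k} (hv : lab v = some l) (hl : lev l = none) :
    rank v = k + 3 := by
  cases v <;> simp only [lab, Option.some.injEq, reduceCtorEq] at hv <;> subst hv <;>
    simp only [rank, hl]

lemma lev_le {l : Lab k} {i : ℕ} (hl : lev l = some i) : i ≤ k := by
  cases l with
  | e1 => simp [lev] at hl
  | e2 => simp [lev] at hl
  | p j =>
    simp only [lev, Option.some.injEq] at hl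
    have := j.isLt
    omega
  | n j =>
    simp only [lev, Option.some.injEq] at hl
    have := j.isLt
    omega

/-- Later neighbours of a vertex with a label. -/
lemma later_lab {v a : Vert k} {l : Lab k} (hv : lab v = some l) (h : (HT k).Adj v a)
    (hr : rank v ≤ rank a) : ∃ m, lab a = some m ∧ near l m ∧
      ∀ j, lev m = some j → ∃ i, lev l = some i ∧ i ≤ j := by
  have h2 : 2 ≤ rank v := by
    rcases hl : lev l with _ | i
    · rw [rank_none hv hl]
      omega
    · rw [rank_some hv hl]
      omega
  have hm : ∃ m, lab a = some m := by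
    cases a with
    | U m => exact ⟨m, rfl⟩
    | G m => exact ⟨m, rfl⟩
    | S g => have h3 : rank (.S g : Vert k) = 1 := rfl; omega
    | K g => have h3 : rank (.K g : Vert k) = 0 := rfl; omega
    | K' g => have h3 : rank (.K' g : Vert k) = 0 := rfl; omega
  obtain ⟨m, hm⟩ := hm
  refine ⟨m, hm, ((adj_lab hv hm).1 h).2, fun j hj => ?_⟩
  rw [rank_some hm hj] at hr
  have hjk := lev_le hj
  rcases hl : lev l with _ | i
  · rw [rank_none hv hl] at hr
    omega
  · rw [rank_some hv hl] at hr
    exact ⟨i, rfl, by omega⟩

/-- Later neighbours of a vertex of a gadget. -/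
lemma later_gad {v : Vert k} (hv : lab v = none) : ∃ g : Gad k, ∀ a, (HT k).Adj v a →
    rank v ≤ rank a → a ∈ C g := by
  cases v with
  | U l => simp [lab] at hv
  | G l => simp [lab] at hv
  | K g =>
    refine ⟨g, fun a h _ => ?_⟩
    rcases h.2 with h | h <;> cases a <;> simp only [R] at h
    · rcases h with rfl | rfl <;> simp [C]
    · subst h
      simp [C]
  | K' g =>
    refine ⟨g, fun a h _ => ?_⟩
    rcases h.2 with h | h <;> cases a <;> simp only [R] at h
    · rcases h with rfl | rfl <;> simp [C]
    · subst h
      simp [C]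
  | S g =>
    refine ⟨g, fun a h hr => ?_⟩
    rcases h.2 with h | h <;> cases a <;> simp only [R] at h
    · rcases h with rfl | rfl | rfl <;> simp [C]
    · simp [rank] at hr
    · simp [rank] at hr

open Classical in
/-- The elimination ordering. -/
noncomputable def ord (v : Vert k) : ℕ :=
  rank v * (Fintype.card (Vert k) + 1) + (Fintype.equivFin (Vert k) v).val

lemma ord_div (v : Vert k) : ord v / (Fintype.card (Vert k) + 1) = rank v := by
  rw [ord, mul_comm, Nat.mul_add_div (by omega), Nat.div_eq_of_lt, add_zero]
  have := (Fintype.equivFin (Vert k) v).isLt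
  omega

lemma ord_injective : Function.Injective (ord (k := k)) := by
  intro u v h
  have h1 := ord_div u
  rw [h, ord_div] at h1
  unfold ord at h
  rw [h1] at h
  exact (Fintype.equivFin (Vert k)).injective (Fin.ext (by omega))

lemma rank_le_of_ord {u v : Vert k} (h : ord u < ord v) : rank u ≤ rank v := by
  rw [← ord_div u, ← ord_div v]
  exact Nat.div_le_div_right h.le

lemma HT_chordal : IsChordal (HT k) := by
  refine isChordal_of_order _ ord ord_injective fun v a b ha hb la lb hab => ?_
  have ra := rank_le_of_ord la
  have rb := rank_le_of_ord lb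
  rcases hv : lab v with _ | l
  · obtain ⟨g, hg⟩ := later_gad hv
    exact C_clique g a b (hg a ha ra) (hg b hb rb) hab
  · obtain ⟨m, hm, nm, jm⟩ := later_lab hv ha ra
    obtain ⟨m', hm', nm', jm'⟩ := later_lab hv hb rb
    refine (adj_lab hm hm').2 ⟨hab, fun i j hi hj => ?_⟩
    obtain ⟨t, ht, hti⟩ := jm i hi
    obtain ⟨t', ht', htj⟩ := jm' j hj
    rw [ht] at ht'
    have h1 := Option.some_injective _ ht'
    have h2 := nm t i ht hi
    have h3 := nm' t j ht hj
    omega

/-- Numbers for the vertices of two consecutive levels. -/
def code (i : ℕ) : Vert k → ℕ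
  | .U .e1 => 0
  | .U .e2 => 1
  | .U (.p j) => 2 + (j.val - i)
  | .U (.n j) => 4 + (j.val - i)
  | .G .e1 => 6
  | .G .e2 => 7
  | .G (.p j) => 8 + (j.val - i)
  | .G (.n j) => 10 + (j.val - i)
  | _ => 12

/-- Vertices of the levels `i` and `i + 1` or without level. -/
def good (i : ℕ) (v : Vert k) : Prop :=
  ∃ l, lab v = some l ∧ ∀ j, lev l = some j → i ≤ j ∧ j ≤ i + 1

lemma code_lt {i : ℕ} {v : Vert k} (h : good i v) : code i v < 12 := by
  obtain ⟨l, hl, hj⟩ := h
  cases v <;> simp only [lab, Option.some.injEq, reduceCtorEq] at hl <;> subst hl <;>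
    rename_i l <;> cases l <;> simp only [code] <;>
    first
      | omega
      | (rename_i j
         have := hj j.val rfl
         omega)

lemma code_inj {i : ℕ} {u v : Vert k} (hu : good i u) (hv : good i v)
    (h : code i u = code i v) : u = v := by
  obtain ⟨l, hl, hj⟩ := hu
  obtain ⟨m, hm, hj'⟩ := hv
  have e : ∀ a b : Fin (k + 1), a.val = b.val → a = b := fun a b => Fin.ext
  cases u <;> simp only [lab, Option.some.injEq, reduceCtorEq] at hl <;> subst hl <;>
    rename_i l <;> cases v <;> simp only [lab, Option.some.injEq, reduceCtorEq] at hm <;>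
    subst hm <;> rename_i m <;> cases l <;> cases m <;> simp only [code] at h <;>
    first
      | rfl
      | (exfalso; omega)
      | (rename_i a b
         have h1 := hj a.val rfl
         have h2 := hj' b.val rfl
         first
           | (exfalso; omega)
           | (rw [e a b (by omega)]))
      | (rename_i a
         have h1 := hj a.val rfl
         exfalso; omega)
      | (rename_i a
         have h1 := hj' a.val rfl
         exfalso; omega)

lemma HT_cliqueFree : (HT k).CliqueFree 13 := by
  intro s hs
  have hc := hs.card_eq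
  obtain ⟨v, hv, hmin⟩ := Finset.exists_min_image s ord (Finset.card_pos.1 (by omega))
  have hr : ∀ a ∈ s, rank v ≤ rank a := by
    intro a ha
    rcases eq_or_lt_of_le (hmin a ha) with h | h
    · rw [ord_injective h]
    · exact rank_le_of_ord h
  rcases hl : lab v with _ | l
  · obtain ⟨g, hg⟩ := later_gad hl
    have h1 : s ⊆ insert v (C g) := by
      intro a ha
      by_cases h : a = v
      · rw [h]
        exact Finset.mem_insert_self _ _
      · exact Finset.mem_insert_of_mem (hg a (hs.isClique hv ha (Ne.symm h)) (hr a ha))
    have h2 := (Finset.card_le_card h1).trans (Finset.card_insert_le _ _)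
    have h3 : (C g).card ≤ 4 := Finset.card_le_four
    omega
  · have h1 : ∃ i, ∀ a ∈ s, good i a := by
      rcases hi : lev l with _ | i
      · refine ⟨0, fun a ha => ?_⟩
        by_cases h : a = v
        · subst h
          exact ⟨l, hl, fun j hj => absurd (hi.symm.trans hj) (by simp)⟩
        · obtain ⟨m, hm, -, jm⟩ := later_lab hl (hs.isClique hv ha (Ne.symm h)) (hr a ha)
          refine ⟨m, hm, fun j hj => ?_⟩
          obtain ⟨i, h1, -⟩ := jm j hj
          exact absurd (hi.symm.trans h1) (by simp)
      · refine ⟨i, fun a ha => ?_⟩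
        by_cases h : a = v
        · subst h
          refine ⟨l, hl, fun j hj => ?_⟩
          have := Option.some_injective _ (hi.symm.trans hj)
          omega
        · obtain ⟨m, hm, nm, jm⟩ := later_lab hl (hs.isClique hv ha (Ne.symm h)) (hr a ha)
          refine ⟨m, hm, fun j hj => ?_⟩
          obtain ⟨i', h1, h2⟩ := jm j hj
          have h3 := Option.some_injective _ (hi.symm.trans h1)
          have h4 := nm i j hi hj
          omega
    obtain ⟨i, hi⟩ := h1
    have h2 := Finset.card_le_card_of_injOn (s := s) (t := Finset.range 12) (code i)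
      (fun a ha => Finset.mem_coe.2 (Finset.mem_range.2 (code_lt (hi a ha))))
      (fun a ha b hb h => code_inj (hi a ha) (hi b hb) h)
    rw [Finset.card_range] at h2
    omega

/-- The treewidth is at most eleven. -/
theorem treewidth_T : RC.TreewidthLE (T k) 11 := ⟨HT k, T_le, HT_chordal, HT_cliqueFree⟩

end Pool.Agent.Lib.MP_13b08e_lc.Doubling
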